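import Pool.Agent.Lib.MP_f11a48_ag.KM.All

/-!
# MP_f11a48_ag: Kuga-Satake pairs, isometries commuting with `E` (helper4)
-/

set_option autoImplicit false

namespace Pool.Agent.Lib.MPf11a48.SH.KSBlk

open Matrix Pool.Agent.Lib.MPf11a48.Tors
open Pool.Agent.Lib.MPf11a48.CM hiding OmegaM
open Pool.Agent.Lib.MPf11a48.U (AbData Ix HD EndAlg)
open Pool.Agent.Lib.MPf11a48.K3 Pool.Agent.Lib.MPf11a48.KU Pool.Agent.Lib.MPf11a48.KM
open Pool.Agent.Lib.MPf11a48.KM.LftM (GF wh WF)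
open KGrpM (cm)

variable (D : Dat)

theorem WF_P (X : D.FR) (Y Z : D.FU) : WF D X Y Z * D.P = D.P * blockDiagonal' X := by
  obtain ⟨⟨a1, a2, a3⟩, ⟨b1, b2, b3⟩, ⟨c1, c2, c3⟩⟩ := KM.MatM.rels D
  unfold WF cm
  rw [Matrix.add_mul, Matrix.add_mul, Matrix.mul_assoc, Matrix.mul_assoc (D.P' * _),
    Matrix.mul_assoc (D.Q' * _), a1, b1, c1, Matrix.mul_zero, Matrix.mul_zero, Matrix.mul_one,
    add_zero, add_zero]

theorem WF_P' (X : D.FR) (Y Z : D.FU) : WF D X Y Z * D.P' = D.P' * blockDiagonal' Y := by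
  obtain ⟨⟨a1, a2, a3⟩, ⟨b1, b2, b3⟩, ⟨c1, c2, c3⟩⟩ := KM.MatM.rels D
  unfold WF cm
  rw [Matrix.add_mul, Matrix.add_mul, Matrix.mul_assoc, Matrix.mul_assoc (D.P' * _),
    Matrix.mul_assoc (D.Q' * _), a2, b2, c2, Matrix.mul_zero, Matrix.mul_zero, Matrix.mul_one,
    add_zero, zero_add]

theorem WF_Q' (X : D.FR) (Y Z : D.FU) : WF D X Y Z * D.Q' = D.Q' * blockDiagonal' Z := by
  obtain ⟨⟨a1, a2, a3⟩, ⟨b1, b2, b3⟩, ⟨c1, c2, c3⟩⟩ := KM.MatM.rels D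
  unfold WF cm
  rw [Matrix.add_mul, Matrix.add_mul, Matrix.mul_assoc, Matrix.mul_assoc (D.P' * _),
    Matrix.mul_assoc (D.Q' * _), a3, b3, c3, Matrix.mul_zero, Matrix.mul_zero, Matrix.mul_one,
    zero_add, zero_add]

variable {D}

theorem x_P {x : Matrix (Fin D.n) (Fin D.n) ℂ} (hE : ∀ e ∈ D.E, x * cx e = cx e * x) :
    x * D.P = D.P * blockDiagonal' (D.xr x) := by
  obtain ⟨⟨a2, a3⟩, ⟨b1, b2⟩, ⟨c1, c3⟩⟩ := KM.MatM.blocks hE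
  rw [KM.MatM.bd_xr hE]
  have h1 := KM.MatM.split_mul' D (x * D.P)
  rw [← Matrix.mul_assoc (D.Pᵀ * cx D.qB), ← Matrix.mul_assoc (D.Q'ᵀ * cx D.qB),
    ← Matrix.mul_assoc (D.P'ᵀ * cx D.qB), c1, b1, Matrix.mul_zero, Matrix.mul_zero, add_zero,
    add_zero] at h1
  exact h1

theorem x_P' {x : Matrix (Fin D.n) (Fin D.n) ℂ} (hE : ∀ e ∈ D.E, x * cx e = cx e * x) :
    x * D.P' = D.P' * blockDiagonal' (D.xu x) := by
  obtain ⟨⟨a2, a3⟩, ⟨b1, b2⟩, ⟨c1, c3⟩⟩ := KM.MatM.blocks hE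
  rw [KM.MatM.bd_xu hE]
  have h1 := KM.MatM.split_mul' D (x * D.P')
  rw [← Matrix.mul_assoc (D.Pᵀ * cx D.qB), ← Matrix.mul_assoc (D.Q'ᵀ * cx D.qB),
    ← Matrix.mul_assoc (D.P'ᵀ * cx D.qB), a2, b2, Matrix.mul_zero, Matrix.mul_zero, add_zero,
    zero_add] at h1
  exact h1

theorem x_Q' {x : Matrix (Fin D.n) (Fin D.n) ℂ} (hE : ∀ e ∈ D.E, x * cx e = cx e * x) :
    x * D.Q' = D.Q' * (D.P'ᵀ * cx D.qB * x * D.Q') := by
  obtain ⟨⟨a2, a3⟩, ⟨b1, b2⟩, ⟨c1, c3⟩⟩ := KM.MatM.blocks hE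
  have h1 := KM.MatM.split_mul' D (x * D.Q')
  rw [← Matrix.mul_assoc (D.Pᵀ * cx D.qB), ← Matrix.mul_assoc (D.Q'ᵀ * cx D.qB),
    ← Matrix.mul_assoc (D.P'ᵀ * cx D.qB), a3, c3, Matrix.mul_zero, Matrix.mul_zero, zero_add,
    zero_add] at h1
  exact h1

theorem bd_ext {κ : Type} [Fintype κ] [DecidableEq κ] {m : κ → ℕ}
    {X : (k : κ) → Matrix (Fin (m k)) (Fin (m k)) ℂ} (h : blockDiagonal' X = 1) (k : κ) :
    X k = 1 := by
  have h1 : blockDiagonal' X = blockDiagonal' (fun k => (1 : Matrix (Fin (m k)) (Fin (m k)) ℂ)) := by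
    rw [h]
    exact blockDiagonal'_one.symm
  exact congrFun (blockDiagonal'_injective h1) k

/-- an isometry which commutes with `E` is given by its blocks -/
theorem exists_blocks {x : GL (Fin D.n) ℂ} (hiso : x.1ᵀ * cx D.qB * x.1 = cx D.qB)
    (hE : ∀ e ∈ D.E, x.1 * cx e = cx e * x.1) :
    ∃ w : GF D, (∀ k, (w.1 k).1ᵀ * (w.1 k).1 = 1) ∧ x = wh D w := by
  obtain ⟨⟨r1, r2, r3⟩, ⟨s1, s2, s3⟩, ⟨t1, t2, t3⟩⟩ := KM.MatM.rels D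
  have hxx : x.1 * x⁻¹.1 = 1 := x.mul_inv
  have hxx' : x⁻¹.1 * x.1 = 1 := x.inv_mul
  have hE' : ∀ e ∈ D.E, x⁻¹.1 * cx e = cx e * x⁻¹.1 := by
    intro e he
    calc x⁻¹.1 * cx e = x⁻¹.1 * (cx e * x.1) * x⁻¹.1 := by
          rw [Matrix.mul_assoc, Matrix.mul_assoc (cx e), hxx, Matrix.mul_one]
      _ = x⁻¹.1 * x.1 * cx e * x⁻¹.1 := by rw [← hE e he, Matrix.mul_assoc x⁻¹.1 x.1]
      _ = _ := by rw [hxx', Matrix.one_mul]
  have hP := x_P hE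
  have hP' := x_P' hE
  have hQ' := x_Q' hE
  have hiP' := x_P' hE'
  -- the real blocks
  have hO : blockDiagonal' (fun k => (D.xr x.1 k)ᵀ * D.xr x.1 k) = 1 := by
    rw [blockDiagonal'_mul, ← blockDiagonal'_transpose]
    have h1 : (x.1 * D.P)ᵀ * cx D.qB * (x.1 * D.P) = 1 := by
      calc (x.1 * D.P)ᵀ * cx D.qB * (x.1 * D.P) = D.Pᵀ * (x.1ᵀ * cx D.qB * x.1) * D.P := by
            rw [Matrix.transpose_mul]
            simp only [Matrix.mul_assoc]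
        _ = 1 := by rw [hiso, r1]
    rw [hP] at h1
    calc (blockDiagonal' (D.xr x.1))ᵀ * blockDiagonal' (D.xr x.1) =
        (blockDiagonal' (D.xr x.1))ᵀ * (D.Pᵀ * cx D.qB * D.P) * blockDiagonal' (D.xr x.1) := by
          rw [r1, Matrix.mul_one]
      _ = (D.P * blockDiagonal' (D.xr x.1))ᵀ * cx D.qB * (D.P * blockDiagonal' (D.xr x.1)) := by
          rw [Matrix.transpose_mul]
          simp only [Matrix.mul_assoc]
      _ = 1 := h1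
  have hO' : ∀ k, (D.xr x.1 k)ᵀ * D.xr x.1 k = 1 := fun k => bd_ext hO k
  -- the unitary blocks
  have hU1 : blockDiagonal' (D.xu x.1) * blockDiagonal' (D.xu x⁻¹.1) = 1 := by
    have h1 : D.P' * (blockDiagonal' (D.xu x.1) * blockDiagonal' (D.xu x⁻¹.1)) = D.P' := by
      rw [← Matrix.mul_assoc, ← hP', Matrix.mul_assoc, ← hiP', ← Matrix.mul_assoc, hxx,
        Matrix.one_mul]
    have h2 := congrArg (fun X => D.Q'ᵀ * cx D.qB * X) h1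
    beta_reduce at h2
    rw [← Matrix.mul_assoc, t2, Matrix.one_mul] at h2
    exact h2
  have hU1' : ∀ k, D.xu x.1 k * D.xu x⁻¹.1 k = 1 := fun k =>
    bd_ext (X := fun k => D.xu x.1 k * D.xu x⁻¹.1 k) (by rw [blockDiagonal'_mul]; exact hU1) k
  have hU2' : ∀ k, D.xu x⁻¹.1 k * D.xu x.1 k = 1 := fun k => mul_eq_one_comm.1 (hU1' k)
  have hZ : D.P'ᵀ * cx D.qB * x.1 * D.Q' = blockDiagonal' fun k => (D.xu x⁻¹.1 k)ᵀ := by
    obtain ⟨Z, hZd⟩ : ∃ Z, Z = D.P'ᵀ * cx D.qB * x.1 * D.Q' := ⟨_, rfl⟩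
    rw [← hZd] at hQ' ⊢
    have h1 : (x.1 * D.P')ᵀ * cx D.qB * (x.1 * D.Q') = 1 := by
      calc (x.1 * D.P')ᵀ * cx D.qB * (x.1 * D.Q') = D.P'ᵀ * (x.1ᵀ * cx D.qB * x.1) * D.Q' := by
            rw [Matrix.transpose_mul]
            simp only [Matrix.mul_assoc]
        _ = 1 := by rw [hiso, s3]
    rw [hP', hQ'] at h1
    have h2 : (blockDiagonal' (D.xu x.1))ᵀ * Z = 1 := by
      calc (blockDiagonal' (D.xu x.1))ᵀ * Z =
          (blockDiagonal' (D.xu x.1))ᵀ * (D.P'ᵀ * cx D.qB * D.Q') * Z := by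
            rw [s3, Matrix.mul_one]
        _ = (D.P' * blockDiagonal' (D.xu x.1))ᵀ * cx D.qB * (D.Q' * Z) := by
            rw [Matrix.transpose_mul]
            simp only [Matrix.mul_assoc]
        _ = 1 := h1
    have h3 : (blockDiagonal' (D.xu x⁻¹.1))ᵀ * (blockDiagonal' (D.xu x.1))ᵀ = 1 := by
      rw [← Matrix.transpose_mul, hU1, Matrix.transpose_one]
    calc Z = (blockDiagonal' (D.xu x⁻¹.1))ᵀ * (blockDiagonal' (D.xu x.1))ᵀ * Z := by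
          rw [h3, Matrix.one_mul]
      _ = (blockDiagonal' (D.xu x⁻¹.1))ᵀ := by rw [Matrix.mul_assoc, h2, Matrix.mul_one]
      _ = _ := blockDiagonal'_transpose _
  refine ⟨(fun k => ⟨D.xr x.1 k, (D.xr x.1 k)ᵀ, mul_eq_one_comm.1 (hO' k), hO' k⟩,
    fun k => ⟨D.xu x.1 k, D.xu x⁻¹.1 k, hU1' k, hU2' k⟩), hO', Units.ext ?_⟩
  change x.1 = WF D (D.xr x.1) (D.xu x.1) fun k => (D.xu x⁻¹.1 k)ᵀ
  apply KM.MatM.ext3 D
  · rw [hP, WF_P]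
  · rw [hP', WF_P']
  · rw [hQ', hZ, WF_Q']

end Pool.Agent.Lib.MPf11a48.SH.KSBlk
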