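import Pool.Agent.Lib.MP_f11a48_ag.KM.Stmt

/-!
# MP_f11a48_ag: Kuga-Satake pairs over a field `K` (helper4)
-/

set_option autoImplicit false

namespace Pool.Agent.Lib.MPf11a48.KM

open Matrix Pool.Agent.Lib.MPf11a48.CM
open Pool.Agent.Lib.MPf11a48.U (AbData Ix EndAlg)
open Pool.Agent.Lib.MPf11a48.K3

/-- The data of `KSFam` are defined over `K`: the abelian variety `A`, the form on `T_dR`, the morphism
`T → End(h^1(A))`, the endomorphisms `E` of `T`, and all endomorphisms of `h^1(A)`. (For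
`K = Qbar` this follows from `KSFam`.) -/
structure KSOver (K : IntermediateField ℚ ℂ) {g N n : ℕ} (A : AbData g N) (c : GL (Ix g) ℂ)
    (t : GL (Fin n) ℂ) (qdR : Matrix (Fin n) (Fin n) ℂ) (B : Fin n → Matrix (Ix g) (Ix g) ℚ)
    (E : Set (Matrix (Fin n) (Fin n) ℚ)) : Prop where
  abvar : A.IsAbVar K
  alg : ∀ i j, qdR i j ∈ K
  morphism : ∀ j, ∃ B' : Matrix (Ix g) (Ix g) ℂ, (∀ a b, B' a b ∈ K) ∧
    c.1 * B' = (∑ i, t.1 i j • cx (B i)) * c.1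
  endT : ∀ e ∈ E, ∃ e' : Matrix (Fin n) (Fin n) ℂ, (∀ a b, e' a b ∈ K) ∧ t.1 * e' = cx e * t.1
  endA : ∀ Z ∈ EndAlg c.1, ∃ Z' : Matrix (Ix g) (Ix g) ℂ, (∀ a b, Z' a b ∈ K) ∧
    c.1 * Z' = cx Z * c.1

/-- Over `Qbar` this is no further hypothesis. -/
theorem KSOver.of {g N n : ℕ} {I : Type} [Fintype I] [DecidableEq I] {A : AbData g N}
    {c : GL (Ix g) ℂ} {t : GL (Fin n) ℂ} {qdR : Matrix (Fin n) (Fin n) ℂ}
    {qB : Matrix (Fin n) (Fin n) ℚ} {B : Fin n → Matrix (Ix g) (Ix g) ℚ}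
    {E : Set (Matrix (Fin n) (Fin n) ℚ)} {ix : Fin n → I} {π : I → Matrix (Ix g) (Ix g) ℚ}
    (h : KSFam A c t qdR qB B E ix π) : KSOver Qbar A c t qdR B E where
  abvar := h.abvar
  alg := h.alg
  morphism := h.morphism
  endT := h.endT
  endA _ hZ := hZ

end Pool.Agent.Lib.MPf11a48.KM
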