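import Pool.Agent.Lib.MP_f11a48_ag.SH.KS.Blk

/-!
# MP_f11a48_ag: Kuga-Satake pairs, the determinants on the eigenspaces (helper4)

`det_one`: if `(a, x, z)` is compatible with the Clifford multiplication, and `a` commutes with the
endomorphisms of `A`, then `x` has determinant `1` on the orthogonal eigenspaces `V_r`: otherwise we may
assume that `x` is a reflection on `V_r`, and then `a` anticommutes with the volume element of `V_r`,
which is a complex combination of endomorphisms of `A`.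
-/

set_option autoImplicit false

namespace Pool.Agent.Lib.MPf11a48.SH.KSDet

open Matrix Pool.Agent.Lib.MPf11a48.Tors
open Pool.Agent.Lib.MPf11a48.CM hiding OmegaM
open Pool.Agent.Lib.MPf11a48.U (AbData Ix HD EndAlg)
open Pool.Agent.Lib.MPf11a48.K3 Pool.Agent.Lib.MPf11a48.KU Pool.Agent.Lib.MPf11a48.KM
open Pool.Agent.Lib.MPf11a48.KM.LftM (GF wh WF)
open KGrpM (cm stab)
open KGrp3M (G0 sc ex)
open KLieM (bl clC gam)
open KRatM

/-! ### Products in a non-commutative ring -/

section ring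

variable {ι : Type} [Fintype ι] [DecidableEq ι]

theorem prod_comm {g : Matrix ι ι ℂ} : ∀ {m : ℕ} (f : Fin m → Matrix ι ι ℂ) (ε : Fin m → ℂ),
    (∀ i, g * f i = ε i • (f i * g)) →
    g * (List.ofFn f).prod = (∏ i, ε i) • ((List.ofFn f).prod * g) := by
  intro m
  induction m with
  | zero =>
    intro f ε _
    simp
  | succ m ih =>
    intro f ε h
    rw [List.ofFn_succ, List.prod_cons, Fin.prod_univ_succ, ← Matrix.mul_assoc, h 0,
      Matrix.smul_mul, Matrix.mul_assoc, ih (fun i => f i.succ) (fun i => ε i.succ) fun i => h _,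
      Matrix.mul_smul, smul_smul, Matrix.mul_assoc]

/-- the product of Clifford generators and the reverse product -/
theorem prod_rev {p : Matrix ι ι ℂ} {a : ℂ} : ∀ {m : ℕ} (f : Fin m → Matrix ι ι ℂ),
    (∀ i, f i * f i = a • p) → (∀ i, p * f i = f i) → (∀ i, f i * p = f i) →
    p * ((List.ofFn f).prod * (List.ofFn fun i => f i.rev).prod) = a ^ m • p := by
  intro m
  induction m with
  | zero =>
    intro f _ _ _
    simp
  | succ m ih =>
    intro f h1 h2 h3
    have e1 : (List.ofFn fun i : Fin (m + 1) => f i.rev) =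
        (List.ofFn fun i : Fin m => f i.rev.succ) ++ [f 0] := by
      rw [List.ofFn_succ']
      simp [Fin.rev_castSucc, List.concat_eq_append]
    have e2 := ih (fun i => f i.succ) (fun i => h1 _) (fun i => h2 _) fun i => h3 _
    rw [e1, List.prod_append, List.prod_singleton, List.ofFn_succ, List.prod_cons]
    calc p * (f 0 * (List.ofFn fun i => f i.succ).prod *
          ((List.ofFn fun i : Fin m => f i.rev.succ).prod * f 0))
        = p * f 0 * ((List.ofFn fun i => f i.succ).prod *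
          (List.ofFn fun i : Fin m => f i.rev.succ).prod) * f 0 := by
          simp only [Matrix.mul_assoc]
      _ = f 0 * (p * ((List.ofFn fun i => f i.succ).prod *
          (List.ofFn fun i : Fin m => f i.rev.succ).prod)) * f 0 := by
          rw [h2 0]
          nth_rewrite 1 [← h3 0]
          simp only [Matrix.mul_assoc]
      _ = _ := by
          rw [e2, Matrix.mul_smul, Matrix.smul_mul, h3 0, h1 0, smul_smul, pow_succ]

theorem left_absorb {p : Matrix ι ι ℂ} {m : ℕ} (hm : 0 < m) (f : Fin m → Matrix ι ι ℂ)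
    (h2 : ∀ i, p * f i = f i) : p * (List.ofFn f).prod = (List.ofFn f).prod := by
  obtain ⟨m, rfl⟩ := Nat.exists_eq_succ_of_ne_zero hm.ne'
  rw [List.ofFn_succ, List.prod_cons, ← Matrix.mul_assoc, h2]

theorem right_absorb {p : Matrix ι ι ℂ} {m : ℕ} (hm : 0 < m) (f : Fin m → Matrix ι ι ℂ)
    (h3 : ∀ i, f i * p = f i) : (List.ofFn f).prod * p = (List.ofFn f).prod := by
  obtain ⟨m, rfl⟩ := Nat.exists_eq_succ_of_ne_zero hm.ne'
  rw [List.ofFn_succ', List.concat_eq_append, List.prod_append, List.prod_singleton,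
    Matrix.mul_assoc, h3]

end ring

variable (D : Dat)

/-- the volume element of `V_k` -/
noncomputable def vol (k : D.R) : Matrix (Ix D.g) (Ix D.g) ℂ :=
  (List.ofFn fun i : Fin (D.m k) => D.gm ⟨k, i⟩).prod

theorem m_pos (k : D.R) : 0 < D.m k := lt_of_lt_of_le (by norm_num) (D.good.three k)

theorem pc_vol (k : D.R) : D.pc (D.ox k) * vol D k = vol D k :=
  left_absorb (m_pos D k) _ fun i => by
    rw [((specMCar D).2.2.2.2.1 _ _).1, if_pos rfl]

theorem vol_pc (k : D.R) : vol D k * D.pc (D.ox k) = vol D k :=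
  right_absorb (m_pos D k) _ fun i => by
    rw [((specMCar D).2.2.2.2.1 _ _).2, if_pos rfl]

theorem gm_sq (u : (k : D.R) × Fin (D.m k)) : D.gm u * D.gm u = (2 : ℂ)⁻¹ • D.pc (D.ox u.1) := by
  have h := (specMCar D).1 u u
  rw [if_pos rfl, ← two_smul ℂ] at h
  rw [← h, smul_smul, inv_mul_cancel₀ two_ne_zero, one_smul]

theorem gm_ne {u v : (k : D.R) × Fin (D.m k)} (h : u ≠ v) :
    D.gm u * D.gm v = (-1 : ℂ) • (D.gm v * D.gm u) := by
  have h1 := (specMCar D).1 u v
  rw [if_neg h] at h1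
  rw [neg_smul, one_smul]
  exact eq_neg_of_add_eq_zero_left h1

theorem vol_ne (k : D.R) : vol D k ≠ 0 := by
  intro h
  have h1 := prod_rev (p := D.pc (D.ox k)) (a := (2 : ℂ)⁻¹)
    (fun i : Fin (D.m k) => D.gm ⟨k, i⟩) (fun i => gm_sq D _)
    (fun i => by rw [((specMCar D).2.2.2.2.1 _ _).1, if_pos rfl])
    (fun i => by rw [((specMCar D).2.2.2.2.1 _ _).2, if_pos rfl])
  have h2 : (List.ofFn fun i : Fin (D.m k) => D.gm ⟨k, i⟩).prod = 0 := h
  rw [h2, Matrix.zero_mul, Matrix.mul_zero] at h1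
  have h3 := (smul_eq_zero.1 h1.symm).resolve_left (pow_ne_zero _ (inv_ne_zero two_ne_zero))
  exact D.ks.ne (D.ox k) (by
    ext a b
    have h4 := congrFun (congrFun h3 a) b
    simpa [Dat.pc, cx] using h4)

/-- the sign in the commutation of `γ_u` with the volume element -/
theorem gm_vol (k : D.R) (u : (k : D.R) × Fin (D.m k)) :
    D.gm u * vol D k =
      (∏ i : Fin (D.m k), if u = ⟨k, i⟩ then (1 : ℂ) else -1) • (vol D k * D.gm u) := by
  refine prod_comm _ _ fun i => ?_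
  split_ifs with h
  · rw [h, one_smul]
  · exact gm_ne D h

theorem sign_eq (k : D.R) (l : D.R) (a b : Fin (D.m l)) :
    (∏ i : Fin (D.m k), if (⟨l, a⟩ : (k : D.R) × Fin (D.m k)) = ⟨k, i⟩ then (1 : ℂ) else -1) =
      ∏ i : Fin (D.m k), if (⟨l, b⟩ : (k : D.R) × Fin (D.m k)) = ⟨k, i⟩ then (1 : ℂ) else -1 := by
  by_cases hlk : l = k
  · subst hlk
    have key : ∀ a : Fin (D.m l), (∏ i : Fin (D.m l),
        if (⟨l, a⟩ : (k : D.R) × Fin (D.m k)) = ⟨l, i⟩ then (1 : ℂ) else -1) *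
        (∏ _i : Fin (D.m l), (-1 : ℂ)) = -1 := by
      intro a
      rw [← Finset.prod_mul_distrib]
      have h1 : ∀ i : Fin (D.m l), (if (⟨l, a⟩ : (k : D.R) × Fin (D.m k)) = ⟨l, i⟩ then (1 : ℂ)
          else -1) * -1 = if a = i then (-1 : ℂ) else 1 := by
        intro i
        by_cases h : a = i
        · rw [if_pos (by rw [h]), if_pos h, one_mul]
        · rw [if_neg (fun h' => h (by
            injection h' with _ h2)), if_neg h]
          norm_num
      rw [Finset.prod_congr rfl fun i _ => h1 i, Finset.prod_ite_eq]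
      simp
    have hne : (∏ _i : Fin (D.m l), (-1 : ℂ)) ≠ 0 := by
      rw [Finset.prod_const]
      exact pow_ne_zero _ (by norm_num)
    exact mul_right_cancel₀ hne ((key a).trans (key b).symm)
  · have h1 : ∀ (a : Fin (D.m l)) (i : Fin (D.m k)),
        (⟨l, a⟩ : (k : D.R) × Fin (D.m k)) ≠ ⟨k, i⟩ := by
      intro a i h
      exact hlk (congrArg Sigma.fst h)
    refine Finset.prod_congr rfl fun i _ => ?_
    rw [if_neg (h1 a i), if_neg (h1 b i)]

theorem sign_sq (k : D.R) (u : (k : D.R) × Fin (D.m k)) :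
    (∏ i : Fin (D.m k), if u = ⟨k, i⟩ then (1 : ℂ) else -1) *
      (∏ i : Fin (D.m k), if u = ⟨k, i⟩ then (1 : ℂ) else -1) = 1 := by
  rw [← Finset.prod_mul_distrib]
  refine Finset.prod_eq_one fun i _ => ?_
  split_ifs <;> norm_num

theorem pc_mul' (i j : D.I) : D.pc i * D.pc j = if i = j then D.pc i else 0 := by
  rw [Dat.pc, Dat.pc, ← cx_mul, D.ks.mul]
  split_ifs
  · rfl
  · exact cx_zero

theorem pc_comm_vol (i : D.I) (k : D.R) : vol D k * D.pc i = D.pc i * vol D k := by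
  by_cases h : D.ox k = i
  · subst h
    rw [pc_vol, vol_pc]
  · have h1 : vol D k * D.pc i = 0 := by
      rw [← vol_pc, Matrix.mul_assoc, pc_mul', if_neg h, Matrix.mul_zero]
    have h2 : D.pc i * vol D k = 0 := by
      rw [← pc_vol, ← Matrix.mul_assoc, pc_mul', if_neg (Ne.symm h), Matrix.zero_mul]
    rw [h1, h2]

/-- the volume element commutes with the even Clifford elements -/
theorem vol_gm (k l : D.R) (a b : Fin (D.m l)) :
    vol D k * (D.gm ⟨l, a⟩ * D.gm ⟨l, b⟩) = D.gm ⟨l, a⟩ * D.gm ⟨l, b⟩ * vol D k := by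
  have h1 := gm_vol D k ⟨l, a⟩
  have h2 := gm_vol D k ⟨l, b⟩
  have h3 := sign_sq D k ⟨l, a⟩
  rw [sign_eq D k l b a] at h2
  obtain ⟨c, hc⟩ : ∃ c : ℂ, c = ∏ i : Fin (D.m k),
    if (⟨l, a⟩ : (k : D.R) × Fin (D.m k)) = ⟨k, i⟩ then (1 : ℂ) else -1 := ⟨_, rfl⟩
  rw [← hc] at h1 h2 h3
  calc vol D k * (D.gm ⟨l, a⟩ * D.gm ⟨l, b⟩) =
      (c * c) • (vol D k * D.gm ⟨l, a⟩ * D.gm ⟨l, b⟩) := by
        rw [h3, one_smul, Matrix.mul_assoc]
    _ = c • (c • (vol D k * D.gm ⟨l, a⟩) * D.gm ⟨l, b⟩) := by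
        rw [Matrix.smul_mul, smul_smul]
    _ = D.gm ⟨l, a⟩ * (c • (vol D k * D.gm ⟨l, b⟩)) := by
        rw [← h1, Matrix.mul_smul, Matrix.mul_assoc]
    _ = _ := by rw [← h2, Matrix.mul_assoc]

theorem vol_e (k : D.R) (u : (k : D.U) × Fin (D.m' k)) : vol D k * D.e u = 0 := by
  have h1 := ((specMCar D).2.2.2.2.2.1 (D.ou u.1) u).1
  rw [if_pos rfl] at h1
  rw [← vol_pc, ← h1, Matrix.mul_assoc, ← Matrix.mul_assoc (D.pc (D.ox k)), pc_mul',
    if_neg (D.good.pure k u.1), Matrix.zero_mul, Matrix.mul_zero]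

theorem f_vol (k : D.R) (u : (k : D.U) × Fin (D.m' k)) : D.f u * vol D k = 0 := by
  have h1 := ((specMCar D).2.2.2.2.2.2.1 (D.ou u.1) u).2
  rw [if_pos rfl] at h1
  rw [← pc_vol, ← h1, Matrix.mul_assoc, ← Matrix.mul_assoc (D.pc (D.ou u.1)), pc_mul',
    if_neg (Ne.symm (D.good.pure k u.1)), Matrix.zero_mul, Matrix.mul_zero]

/-- the volume element commutes with the images of the infinitesimal isometries -/
theorem vol_cl (k : D.R) {ρ : Matrix (Fin D.n) (Fin D.n) ℂ} (hρ : ρ ∈ D.so) :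
    vol D k * D.cl ρ = D.cl ρ * vol D k := by
  rw [(KM.MatM.eq_wm hρ).2, (specMCar D).2.2.2.2.2.2.2.1]
  rw [Matrix.mul_add, Matrix.add_mul, Matrix.mul_sub, Matrix.sub_mul]
  congr 1
  · rw [Matrix.mul_smul, Matrix.smul_mul, Finset.mul_sum, Finset.sum_mul]
    congr 1
    refine Finset.sum_congr rfl fun u _ => ?_
    rw [Finset.mul_sum, Finset.sum_mul]
    refine Finset.sum_congr rfl fun v _ => ?_
    obtain ⟨l, a⟩ := u
    obtain ⟨l', b⟩ := v
    by_cases h : l = l'
    · subst h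
      rw [Matrix.mul_smul, Matrix.smul_mul, vol_gm]
    · rw [blockDiagonal'_apply_ne _ _ _ h, zero_smul, Matrix.mul_zero, Matrix.zero_mul]
  · congr 1
    · rw [Finset.mul_sum, Finset.sum_mul]
      refine Finset.sum_congr rfl fun u _ => ?_
      rw [Finset.mul_sum, Finset.sum_mul]
      refine Finset.sum_congr rfl fun v _ => ?_
      rw [Matrix.mul_smul, Matrix.smul_mul, ← Matrix.mul_assoc, vol_e, Matrix.zero_mul,
        Matrix.mul_assoc, f_vol, Matrix.mul_zero]
    · rw [Matrix.mul_smul, Matrix.smul_mul, Finset.mul_sum, Finset.sum_mul]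
      congr 1
      refine Finset.sum_congr rfl fun u _ => ?_
      rw [Matrix.mul_smul, Matrix.smul_mul, pc_comm_vol]

/-- a matrix which commutes with the endomorphisms of `A` commutes with the volume element -/
theorem comm_vol (k : D.R) {a : Matrix (Ix D.g) (Ix D.g) ℂ}
    (ha : ∀ Z ∈ EndAlg D.c.1, a * cx Z = cx Z * a) : a * vol D k = vol D k * a := by
  obtain ⟨m, β, l, h1⟩ := eq_sum (vol D k)
  have h2 : ∀ i, a * cx (ap (l i) (vol D k)) = cx (ap (l i) (vol D k)) * a := by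
    intro i
    refine ha _ (D.full _ fun ρ hρ => ?_)
    have h3 : cx ρ ∈ D.so := by
      refine ⟨?_, fun e he => ?_⟩
      · have h4 := congrArg cx hρ.1
        rw [cx_add, cx_mul, cx_mul, cx_zero] at h4
        exact h4
      · rw [← cx_mul, ← cx_mul, hρ.2 e he]
    have h4 := vol_cl D k h3
    rw [Dat.cl, KLieM.clC_cx, Matrix.smul_mul, Matrix.mul_smul] at h4
    have h5 : vol D k * cx (cli D.qB D.B ρ) = cx (cli D.qB D.B ρ) * vol D k :=
      smul_right_injective _ (inv_ne_zero (by norm_num : (4 : ℂ) ≠ 0)) h4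
    rw [← mul_rat, h5, rat_mul]
  rw [h1]
  exact KScM.comm_sum _ _ h2

/-- the action on the Clifford operators -/
theorem act_gm {a : Matrix (Ix D.g) (Ix D.g) ℂ} {x : Matrix (Fin D.n) (Fin D.n) ℂ}
    (h : ∀ j, a * cx (D.B j) = (∑ i, x i j • cx (D.B i)) * a)
    {X : Matrix ((k : D.R) × Fin (D.m k)) ((k : D.R) × Fin (D.m k)) ℂ} (hX : x * D.P = D.P * X)
    (u : (k : D.R) × Fin (D.m k)) : a * D.gm u = (∑ v, X v u • D.gm v) * a := by
  have h1 : a * bl D.B (fun b => D.P b u) = bl D.B (fun b => (D.P * X) b u) * a := by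
    rw [← hX, bl, bl, Finset.mul_sum]
    have h2 : ∀ j, a * D.P j u • cx (D.B j) = ∑ i, (x i j * D.P j u) • (cx (D.B i) * a) := by
      intro j
      rw [Matrix.mul_smul, h, Finset.sum_mul, Finset.smul_sum]
      refine Finset.sum_congr rfl fun i _ => ?_
      rw [Matrix.smul_mul, smul_smul, mul_comm]
    rw [Finset.sum_congr rfl fun j _ => h2 j, Finset.sum_comm, Finset.sum_mul]
    refine Finset.sum_congr rfl fun i _ => ?_
    rw [← Finset.sum_smul, Matrix.smul_mul]
    rfl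
  rw [CarM.gm_eq, Matrix.mul_smul, h1, CliM.bl_col, ← Matrix.smul_mul, Finset.smul_sum]
  congr 1
  refine Finset.sum_congr rfl fun v _ => ?_
  rw [CarM.gm_eq, smul_comm]

/-- the whole group is a torsor -/
theorem tt_univ : TT D Set.univ := by
  refine ⟨⟨⟨∅, ?_⟩, Set.univ_nonempty, fun _ _ _ _ _ _ => trivial⟩, trivial, ⟨∅, ?_⟩⟩
  · ext g
    simp
  · ext g
    simp only [Set.mem_empty_iff_false, false_imp_iff, implies_true]
    exact ⟨fun _ => trivial, fun _ => ⟨g, trivial, 1, trivial, by rw [inv_one, mul_one]⟩⟩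

/-- the reflection -/
noncomputable def refl (k : D.R) : GL (Fin (D.m k)) ℂ :=
  ⟨diagonal fun i => if i = ⟨0, m_pos D k⟩ then -1 else 1,
    diagonal fun i => if i = ⟨0, m_pos D k⟩ then -1 else 1, by
      rw [diagonal_mul_diagonal, ← diagonal_one]
      congr 1
      funext i
      split_ifs <;> norm_num, by
      rw [diagonal_mul_diagonal, ← diagonal_one]
      congr 1
      funext i
      split_ifs <;> norm_num⟩

theorem refl_det (k : D.R) : (refl D k).1.det = -1 := by
  change (diagonal fun i : Fin (D.m k) => if i = ⟨0, m_pos D k⟩ then (-1 : ℂ) else 1).det = -1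
  rw [det_diagonal, Finset.prod_ite_eq']
  simp

/-- the determinant is one -/
theorem det_one {a : GL (Ix D.g) ℂ} {z : ℂˣ} {w : GF D}
    (hw : ∀ k, (w.1 k).1ᵀ * (w.1 k).1 = 1)
    (h : ((a, wh D w, z) : Grp3 D.g D.n) ∈ G0 D.B (EndAlg D.c.1) D.A.psi) (k : D.R) :
    (w.1 k).1.det = 1 := by
  classical
  by_contra hk
  have hdet : ∀ k, (w.1 k).1.det = 1 ∨ (w.1 k).1.det = -1 := by
    intro k
    have h1 := congrArg Matrix.det (hw k)
    rw [Matrix.det_mul, Matrix.det_transpose, Matrix.det_one] at h1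
    exact mul_self_eq_one_iff.1 h1
  let s : (k : D.R) → GL (Fin (D.m k)) ℂ := fun k => if (w.1 k).1.det = 1 then 1 else refl D k
  have hs : ∀ k, (s k).1ᵀ * (s k).1 = 1 := by
    intro k
    simp only [s]
    split_ifs
    · change (1 : Matrix (Fin (D.m k)) (Fin (D.m k)) ℂ)ᵀ * 1 = 1
      rw [Matrix.transpose_one, Matrix.mul_one]
    · change (diagonal _)ᵀ * diagonal _ = (1 : Matrix (Fin (D.m k)) (Fin (D.m k)) ℂ)
      rw [diagonal_transpose]
      exact (refl D k).mul_inv
  have hsd : ∀ k, (s k).1.det = (w.1 k).1.det := by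
    intro k
    simp only [s]
    split_ifs with h1
    · rw [h1]
      exact Matrix.det_one
    · rw [refl_det, (hdet k).resolve_left h1]
  have hv : ∀ k, s k * (w.1 k)⁻¹ ∈ SO (D.m k) := by
    intro k
    have e1 : (w.1 k)⁻¹.1 = (w.1 k).1ᵀ := by
      have h1 : (w.1 k)⁻¹.1 * (w.1 k).1 = 1 := (w.1 k).inv_mul
      have h2 : (w.1 k).1 * (w.1 k)⁻¹.1 = 1 := (w.1 k).mul_inv
      calc (w.1 k)⁻¹.1 = (w.1 k).1ᵀ * (w.1 k).1 * (w.1 k)⁻¹.1 := by rw [hw k, Matrix.one_mul]
        _ = _ := by rw [Matrix.mul_assoc, h2, Matrix.mul_one]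
    refine ⟨?_, ?_⟩
    · change ((s k).1 * (w.1 k)⁻¹.1)ᵀ * ((s k).1 * (w.1 k)⁻¹.1) = 1
      rw [Matrix.transpose_mul, Matrix.mul_assoc, ← Matrix.mul_assoc (s k).1ᵀ, hs, Matrix.one_mul,
        e1, Matrix.transpose_transpose]
      exact mul_eq_one_comm.1 (hw k)
    · change ((s k).1 * (w.1 k)⁻¹.1).det = 1
      rw [Matrix.det_mul, hsd, e1, Matrix.det_transpose]
      rcases hdet k with h1 | h1 <;> rw [h1] <;> norm_num
  obtain ⟨b, X, hX, hb, -⟩ := mLft D _ (tt_univ D) (fun k => ⟨s k * (w.1 k)⁻¹, hv k⟩)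
    fun k => (w.2 k)⁻¹
  have hX' : X = wh D ((fun k => s k * (w.1 k)⁻¹), fun k => (w.2 k)⁻¹) := Units.ext hX
  have hG := (G0 D.B (EndAlg D.c.1) D.A.psi).mul_mem hb h
  have hG' : ((b * a, wh D (s, 1), z) : Grp3 D.g D.n) ∈ G0 D.B (EndAlg D.c.1) D.A.psi := by
    have e1 : ((b, X, 1) : Grp3 D.g D.n) * (a, wh D w, z) = (b * a, wh D (s, 1), z) := by
      refine Prod.ext rfl (Prod.ext ?_ (one_mul z))
      change X * wh D w = wh D (s, 1)
      rw [hX', ← map_mul]
      congr 1
      refine Prod.ext ?_ ?_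
      · funext k
        exact inv_mul_cancel_right _ _
      · funext k
        exact inv_mul_cancel _
    rwa [e1] at hG
  -- the action on the Clifford operators
  have hP : (wh D (s, 1)).1 * D.P = D.P * blockDiagonal' fun k => (s k).1 := by
    rw [KM.LftM.wh_val, KSBlk.WF_P]
  have hsk : s k = refl D k := if_neg hk
  have hact : ∀ i : Fin (D.m k), (b * a).1 * D.gm ⟨k, i⟩ =
      (if i = ⟨0, m_pos D k⟩ then (-1 : ℂ) else 1) • (D.gm ⟨k, i⟩ * (b * a).1) := by
    intro i
    have h1 := act_gm D (a := (b * a).1) hG'.1 hP ⟨k, i⟩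
    have h2 : ∑ v, (blockDiagonal' fun k => (s k).1) v ⟨k, i⟩ • D.gm v =
        (if i = ⟨0, m_pos D k⟩ then (-1 : ℂ) else 1) • D.gm ⟨k, i⟩ := by
      rw [Finset.sum_eq_single (⟨k, i⟩ : (k : D.R) × Fin (D.m k))]
      · rw [blockDiagonal'_apply_eq, hsk]
        change (diagonal (fun i : Fin (D.m k) => if i = ⟨0, m_pos D k⟩ then (-1 : ℂ) else 1)) i i •
          D.gm ⟨k, i⟩ = _
        rw [diagonal_apply_eq]
      · rintro ⟨l, j⟩ - hne
        by_cases hl : l = k
        · subst hl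
          rw [blockDiagonal'_apply_eq, hsk]
          change (diagonal (fun i : Fin (D.m l) => if i = ⟨0, m_pos D l⟩ then (-1 : ℂ) else 1))
            j i • D.gm ⟨l, j⟩ = _
          rw [diagonal_apply_ne _ (fun h => hne (by rw [h])), zero_smul]
        · rw [blockDiagonal'_apply_ne _ _ _ hl, zero_smul]
      · intro h
        exact absurd (Finset.mem_univ _) h
    rw [h2, Matrix.smul_mul] at h1
    exact h1
  have h1 : (b * a).1 * vol D k = (∏ i : Fin (D.m k),
      if i = ⟨0, m_pos D k⟩ then (-1 : ℂ) else 1) • (vol D k * (b * a).1) :=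
    prod_comm _ _ hact
  rw [Finset.prod_ite_eq', if_pos (Finset.mem_univ _)] at h1
  have h2 : (b * a).1 * vol D k = vol D k * (b * a).1 := comm_vol D k hG'.2.1
  rw [h2, neg_smul, one_smul] at h1
  have h3 : vol D k * (b * a).1 = 0 := by
    have h5 : (2 : ℂ) • (vol D k * (b * a).1) = 0 := by
      rw [two_smul]
      nth_rewrite 1 [h1]
      exact neg_add_cancel _
    exact (smul_eq_zero.1 h5).resolve_left two_ne_zero
  apply vol_ne D k
  have h4 : (b * a).1 * (b * a)⁻¹.1 = 1 := (b * a).mul_inv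
  calc vol D k = vol D k * (b * a).1 * (b * a)⁻¹.1 := by
        rw [Matrix.mul_assoc, h4, Matrix.mul_one]
    _ = 0 := by rw [h3, Matrix.zero_mul]

end Pool.Agent.Lib.MPf11a48.SH.KSDet
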