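import Pool.Agent.Lib.MP_f11a48_ag.SH.FA.EqG

/-!
# MP_f11a48_ag: regular functions on `GL_μ × G_m` (helper4)
-/

set_option autoImplicit false

open Matrix MvPolynomial
open Pool.Agent.Lib.MPf11a48.C (crdT VarT)

namespace Pool.Agent.Lib.MPf11a48.SH.RegM

variable {μ : Type} [Fintype μ] [DecidableEq μ]

/-- a regular function on `GL_μ × G_m` over `ℂ` -/
def Reg (F : GL μ ℂ × ℂˣ → ℂ) : Prop :=
  ∃ p : MvPolynomial (VarT μ) ℂ, ∀ y, F y = aeval (crdT y) p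

theorem Reg.const (a : ℂ) : Reg (μ := μ) fun _ => a := ⟨C a, fun y => by simp⟩

theorem Reg.add {F G : GL μ ℂ × ℂˣ → ℂ} (hF : Reg F) (hG : Reg G) : Reg fun y => F y + G y := by
  obtain ⟨p, hp⟩ := hF
  obtain ⟨q, hq⟩ := hG
  exact ⟨p + q, fun y => by rw [map_add, ← hp, ← hq]⟩

theorem Reg.mul {F G : GL μ ℂ × ℂˣ → ℂ} (hF : Reg F) (hG : Reg G) : Reg fun y => F y * G y := by
  obtain ⟨p, hp⟩ := hF
  obtain ⟨q, hq⟩ := hG
  exact ⟨p * q, fun y => by rw [map_mul, ← hp, ← hq]⟩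

theorem Reg.sub {F G : GL μ ℂ × ℂˣ → ℂ} (hF : Reg F) (hG : Reg G) : Reg fun y => F y - G y := by
  obtain ⟨p, hp⟩ := hF
  obtain ⟨q, hq⟩ := hG
  exact ⟨p - q, fun y => by rw [map_sub, ← hp, ← hq]⟩

theorem Reg.sum {I : Type} (s : Finset I) {F : I → GL μ ℂ × ℂˣ → ℂ} (hF : ∀ i, Reg (F i)) :
    Reg fun y => ∑ i ∈ s, F i y := by
  classical
  choose p hp using hF
  exact ⟨∑ i ∈ s, p i, fun y => by rw [map_sum]; exact Finset.sum_congr rfl fun i _ => hp i y⟩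

theorem Reg.ent (i j : μ) : Reg fun y : GL μ ℂ × ℂˣ => y.1.1 i j :=
  ⟨X (Sum.inl (Sum.inl (i, j))), fun y => by rw [aeval_X]; rfl⟩

theorem Reg.inv (i j : μ) : Reg fun y : GL μ ℂ × ℂˣ => y.1⁻¹.1 i j :=
  ⟨X (Sum.inl (Sum.inr (i, j))), fun y => by rw [aeval_X]; rfl⟩

theorem Reg.mult : Reg fun y : GL μ ℂ × ℂˣ => (y.2 : ℂ) :=
  ⟨X (Sum.inr (Sum.inl ())), fun y => by rw [aeval_X]; rfl⟩

/-- a matrix of regular functions -/
def RegMat {α β : Type} (F : GL μ ℂ × ℂˣ → Matrix α β ℂ) : Prop := ∀ i j, Reg fun y => F y i j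

section mat

variable {α β γ : Type}

theorem RegMat.const (A : Matrix α β ℂ) : RegMat (μ := μ) fun _ => A := fun i j => Reg.const _

theorem RegMat.add {F G : GL μ ℂ × ℂˣ → Matrix α β ℂ} (hF : RegMat F) (hG : RegMat G) :
    RegMat fun y => F y + G y := fun i j => (hF i j).add (hG i j)

theorem RegMat.sub {F G : GL μ ℂ × ℂˣ → Matrix α β ℂ} (hF : RegMat F) (hG : RegMat G) :
    RegMat fun y => F y - G y := fun i j => (hF i j).sub (hG i j)

theorem RegMat.mul [Fintype β] {F : GL μ ℂ × ℂˣ → Matrix α β ℂ} {G : GL μ ℂ × ℂˣ → Matrix β γ ℂ}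
    (hF : RegMat F) (hG : RegMat G) : RegMat fun y => F y * G y := fun i j => by
  simp only [Matrix.mul_apply]
  exact Reg.sum _ fun k => (hF i k).mul (hG k j)

theorem RegMat.transpose {F : GL μ ℂ × ℂˣ → Matrix α β ℂ} (hF : RegMat F) :
    RegMat fun y => (F y)ᵀ := fun i j => hF j i

theorem RegMat.smul {f : GL μ ℂ × ℂˣ → ℂ} {F : GL μ ℂ × ℂˣ → Matrix α β ℂ} (hf : Reg f)
    (hF : RegMat F) : RegMat fun y => f y • F y := fun i j => hf.mul (hF i j)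

theorem RegMat.sum {I : Type} (s : Finset I) {F : I → GL μ ℂ × ℂˣ → Matrix α β ℂ}
    (hF : ∀ i, RegMat (F i)) : RegMat fun y => ∑ i ∈ s, F i y := fun i j => by
  simp only [Matrix.sum_apply]
  exact Reg.sum _ fun k => hF k i j

end mat

/-- A set which contains every point at which all regular functions vanishing on the set vanish is
closed. -/
theorem closed_of {W : Set (GL μ ℂ × ℂˣ)}
    (h : ∀ y, (∀ F : GL μ ℂ × ℂˣ → ℂ, Reg F → (∀ z ∈ W, F z = 0) → F y = 0) → y ∈ W) :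
    ∃ SW : Set (MvPolynomial (VarT μ) ℂ), ∀ y, y ∈ W ↔ ∀ p ∈ SW, aeval (crdT y) p = 0 := by
  refine ⟨{p | ∀ z ∈ W, aeval (crdT z) p = 0}, fun y => ⟨fun hy p hp => hp y hy, fun hy => ?_⟩⟩
  refine h y fun F hF hFW => ?_
  obtain ⟨p, hp⟩ := hF
  rw [hp]
  exact hy p fun z hz => by rw [← hp, hFW z hz]

/-- the same for matrices -/
theorem mat_eq {W : Set (GL μ ℂ × ℂˣ)} {y : GL μ ℂ × ℂˣ}
    (h : ∀ F : GL μ ℂ × ℂˣ → ℂ, Reg F → (∀ z ∈ W, F z = 0) → F y = 0) {α β : Type}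
    {F G : GL μ ℂ × ℂˣ → Matrix α β ℂ} (hF : RegMat F) (hG : RegMat G)
    (hW : ∀ z ∈ W, F z = G z) : F y = G y := by
  ext i j
  have h1 := h (fun y => F y i j - G y i j) ((hF i j).sub (hG i j)) fun z hz => by
    rw [hW z hz, sub_self]
  exact sub_eq_zero.1 h1

end Pool.Agent.Lib.MPf11a48.SH.RegM
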