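import Pool.Agent.Lib.MP_f11a48_ag.SH.KS.Defs
import Pool.Agent.Lib.MP_f11a48_ag.SH.KS.Det
import Pool.Agent.Lib.MP_f11a48_ag.SH.KS.Reg
import Pool.Agent.Lib.MP_f11a48_ag.SH.FA.Eq2

/-!
# MP_f11a48_ag: Kuga-Satake pairs, the exact equality (helper4)
-/

set_option autoImplicit false

namespace Pool.Agent.Lib.MPf11a48.SH.KSEq

open Matrix MvPolynomial
open Pool.Agent.Lib.MPf11a48.CM hiding OmegaM tw
open Pool.Agent.Lib.MPf11a48.GL2T (IsAlg)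
open Pool.Agent.Lib.MPf11a48.U (AbData Ix HD EndAlg)
open Pool.Agent.Lib.MPf11a48.CMS (dsum IsSubOver)
open Pool.Agent.Lib.MPf11a48.C (IsRep crdT VarT)
open Pool.Agent.Lib.MPf11a48.Tors (FixesField ClosedOver ClosedC)
open Pool.Agent.Lib.MPf11a48.K3 Pool.Agent.Lib.MPf11a48.KU Pool.Agent.Lib.MPf11a48.KM
open Pool.Agent.Lib.MPf11a48.KM.LftM (GF wh WF)
open KGrp3M (G0)
open Pool.Agent.Lib.MPf11a48.SH.EqM (tw2 T_tw)
open Pool.Agent.Lib.MPf11a48.SH.EqGM (eqg isRep_inc isSub_inc)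
open Pool.Agent.Lib.MPf11a48.SH.RegM

section grp

variable {g N n : ℕ}

/-- the isometries of `T` which commute with `E` -/
def IsoE (qB : Matrix (Fin n) (Fin n) ℚ) (E : Set (Matrix (Fin n) (Fin n) ℚ)) :
    Subgroup (GL (Fin n) ℂ) where
  carrier := {x | x.1ᵀ * cx qB * x.1 = cx qB ∧ ∀ e ∈ E, x.1 * cx e = cx e * x.1}
  one_mem' := by
    refine ⟨?_, fun e _ => ?_⟩
    · change (1 : Matrix (Fin n) (Fin n) ℂ)ᵀ * cx qB * 1 = cx qB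
      rw [Matrix.transpose_one, Matrix.one_mul, Matrix.mul_one]
    · change 1 * cx e = cx e * 1
      rw [Matrix.one_mul, Matrix.mul_one]
  mul_mem' := by
    rintro x y ⟨h1, h2⟩ ⟨h1', h2'⟩
    refine ⟨?_, fun e he => ?_⟩
    · change (x.1 * y.1)ᵀ * cx qB * (x.1 * y.1) = cx qB
      calc (x.1 * y.1)ᵀ * cx qB * (x.1 * y.1) = y.1ᵀ * (x.1ᵀ * cx qB * x.1) * y.1 := by
            rw [Matrix.transpose_mul]
            simp only [Matrix.mul_assoc]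
        _ = _ := by rw [h1, h1']
    · change x.1 * y.1 * cx e = cx e * (x.1 * y.1)
      rw [Matrix.mul_assoc, h2' e he, ← Matrix.mul_assoc, h2 e he, Matrix.mul_assoc]
  inv_mem' := by
    rintro x ⟨h1, h2⟩
    have e1 : x.1 * x⁻¹.1 = 1 := x.mul_inv
    have e2 : x⁻¹.1 * x.1 = 1 := x.inv_mul
    refine ⟨?_, fun e he => ?_⟩
    · change x⁻¹.1ᵀ * cx qB * x⁻¹.1 = cx qB
      calc x⁻¹.1ᵀ * cx qB * x⁻¹.1 = x⁻¹.1ᵀ * (x.1ᵀ * cx qB * x.1) * x⁻¹.1 := by rw [h1]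
        _ = (x⁻¹.1ᵀ * x.1ᵀ) * cx qB * (x.1 * x⁻¹.1) := by simp only [Matrix.mul_assoc]
        _ = _ := by
            rw [← Matrix.transpose_mul, e1, Matrix.transpose_one, Matrix.one_mul, Matrix.mul_one]
    · change x⁻¹.1 * cx e = cx e * x⁻¹.1
      calc x⁻¹.1 * cx e = x⁻¹.1 * (cx e * x.1) * x⁻¹.1 := by
            rw [Matrix.mul_assoc, Matrix.mul_assoc (cx e), e1, Matrix.mul_one]
        _ = x⁻¹.1 * x.1 * cx e * x⁻¹.1 := by rw [← h2 e he, Matrix.mul_assoc x⁻¹.1 x.1]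
        _ = _ := by rw [e2, Matrix.one_mul]

/-- the group of all `(a, x, z)`, with an isometry `x` commuting with `E` -/
noncomputable def W0 (A : AbData g N) (c : GL (Ix g) ℂ) (qB : Matrix (Fin n) (Fin n) ℚ)
    (B : Fin n → Matrix (Ix g) (Ix g) ℚ) (E : Set (Matrix (Fin n) (Fin n) ℚ)) :
    Subgroup (Grp3 g n) :=
  G0 B (EndAlg c.1) A.psi ⊓
    (IsoE qB E).comap ((MonoidHom.fst _ _).comp (MonoidHom.snd (GL (Ix g) ℂ) _))

/-- the embedding of `GL_{2g} × GL_n × G_m` -/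
noncomputable def i3 : Grp3 g n →* GL (Ix g ⊕ Fin n) ℂ × ℂˣ where
  toFun y := (dsum y.1 y.2.1, y.2.2)
  map_one' := Prod.ext EqGM.ds_one rfl
  map_mul' x y := Prod.ext (EqGM.ds_mul _ _ _ _) rfl

variable {A : AbData g N} {c : GL (Ix g) ℂ} {t : GL (Fin n) ℂ} {qB : Matrix (Fin n) (Fin n) ℚ}
  {qdR : Matrix (Fin n) (Fin n) ℂ}
  {B : Fin n → Matrix (Ix g) (Ix g) ℚ} {E : Set (Matrix (Fin n) (Fin n) ℚ)}

theorem mp_cx (τ : ℂ ≃+* ℂ) {μ ν : Type} (A : Matrix μ ν ℚ) :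
    (cx A).map (τ : ℂ →+* ℂ) = cx A := by
  ext i j
  simp [cx]

theorem mp_sum (τ : ℂ ≃+* ℂ) {μ ν I : Type} [Fintype I] (x : I → ℂ) (X : I → Matrix μ ν ℚ) :
    (∑ i, x i • cx (X i)).map (τ : ℂ →+* ℂ) = ∑ i, τ (x i) • cx (X i) := by
  ext a b
  simp [Matrix.sum_apply, cx]

/-- the action of an automorphism on `GL_{2g} × GL_n × G_m` -/
noncomputable def tw3 (τ : ℂ ≃+* ℂ) (y : Grp3 g n) : Grp3 g n :=
  (Tors.tw τ y.1, Tors.tw τ y.2.1, Units.map ((τ : ℂ →+* ℂ) : ℂ →* ℂ) y.2.2)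

theorem i3_tw (τ : ℂ ≃+* ℂ) (y : Grp3 g n) : tw2 τ (i3 y) = i3 (tw3 τ y) :=
  Prod.ext (EqGM.tw_ds _ _ _) rfl

theorem W0_tw (τ : ℂ ≃+* ℂ) {y : Grp3 g n} (hy : y ∈ W0 A c qB B E) :
    tw3 τ y ∈ W0 A c qB B E := by
  obtain ⟨⟨h1, h2, h3⟩, h4, h5⟩ := hy
  have f1 : y.1.1.map (τ : ℂ →+* ℂ) = (Tors.tw τ y.1).1 := rfl
  have f2 : y.2.1.1.map (τ : ℂ →+* ℂ) = (Tors.tw τ y.2.1).1 := rfl
  have f3 : (y.1.1ᵀ).map (τ : ℂ →+* ℂ) = (Tors.tw τ y.1).1ᵀ := rfl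
  have f4 : (y.2.1.1ᵀ).map (τ : ℂ →+* ℂ) = (Tors.tw τ y.2.1).1ᵀ := rfl
  refine ⟨⟨fun j => ?_, fun Z hZ => ?_, ?_⟩, ?_, fun e he => ?_⟩
  · have h := congrArg (fun X : Matrix (Ix g) (Ix g) ℂ => X.map (τ : ℂ →+* ℂ)) (h1 j)
    beta_reduce at h
    rw [Matrix.map_mul, Matrix.map_mul, mp_cx, mp_sum, f1] at h
    exact h
  · have h := congrArg (fun X : Matrix (Ix g) (Ix g) ℂ => X.map (τ : ℂ →+* ℂ)) (h2 Z hZ)
    beta_reduce at h
    rw [Matrix.map_mul, Matrix.map_mul, mp_cx, f1] at h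
    exact h
  · have h := congrArg (fun X : Matrix (Ix g) (Ix g) ℂ => X.map (τ : ℂ →+* ℂ)) h3
    beta_reduce at h
    rw [Matrix.map_mul, Matrix.map_mul, mp_cx, f1, f3] at h
    have h6 : ((y.2.2 : ℂ) • cx A.psi).map (τ : ℂ →+* ℂ) = τ (y.2.2 : ℂ) • cx A.psi := by
      have h7 := mp_cx τ A.psi
      ext i j
      have h8 := congrFun (congrFun h7 i) j
      simp only [Matrix.map_apply, Matrix.smul_apply, smul_eq_mul, map_mul] at h8 ⊢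
      rw [h8]
      rfl
    rw [h6] at h
    exact h
  · have h := congrArg (fun X : Matrix (Fin n) (Fin n) ℂ => X.map (τ : ℂ →+* ℂ)) h4
    beta_reduce at h
    change (y.2.1.1ᵀ * cx qB * y.2.1.1).map (τ : ℂ →+* ℂ) = (cx qB).map (τ : ℂ →+* ℂ) at h
    rw [Matrix.map_mul, Matrix.map_mul, mp_cx, f2, f4] at h
    exact h
  · have h := congrArg (fun X : Matrix (Fin n) (Fin n) ℂ => X.map (τ : ℂ →+* ℂ)) (h5 e he)
    beta_reduce at h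
    change (y.2.1.1 * cx e).map (τ : ℂ →+* ℂ) = (cx e * y.2.1.1).map (τ : ℂ →+* ℂ) at h
    rw [Matrix.map_mul, Matrix.map_mul, mp_cx, f2] at h
    exact h

/-- `W0` is closed -/
theorem W0_closed : ∃ SW : Set (MvPolynomial (VarT (Ix g ⊕ Fin n)) ℂ),
    ∀ y, y ∈ (W0 A c qB B E).map i3 ↔ ∀ p ∈ SW, aeval (crdT y) p = 0 := by
  refine closed_of (W := (↑((W0 A c qB B E).map i3) : Set (GL (Ix g ⊕ Fin n) ℂ × ℂˣ)))
    fun y hy => ?_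
  -- the blocks
  have r11 : RegMat fun y : GL (Ix g ⊕ Fin n) ℂ × ℂˣ => y.1.1.toBlocks₁₁ :=
    fun i j => Reg.ent (Sum.inl i) (Sum.inl j)
  have r12 : RegMat fun y : GL (Ix g ⊕ Fin n) ℂ × ℂˣ => y.1.1.toBlocks₁₂ :=
    fun i j => Reg.ent (Sum.inl i) (Sum.inr j)
  have r21 : RegMat fun y : GL (Ix g ⊕ Fin n) ℂ × ℂˣ => y.1.1.toBlocks₂₁ :=
    fun i j => Reg.ent (Sum.inr i) (Sum.inl j)
  have r22 : RegMat fun y : GL (Ix g ⊕ Fin n) ℂ × ℂˣ => y.1.1.toBlocks₂₂ :=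
    fun i j => Reg.ent (Sum.inr i) (Sum.inr j)
  have s12 : RegMat fun y : GL (Ix g ⊕ Fin n) ℂ × ℂˣ => y.1⁻¹.1.toBlocks₁₂ :=
    fun i j => Reg.inv (Sum.inl i) (Sum.inr j)
  have s21 : RegMat fun y : GL (Ix g ⊕ Fin n) ℂ × ℂˣ => y.1⁻¹.1.toBlocks₂₁ :=
    fun i j => Reg.inv (Sum.inr i) (Sum.inl j)
  have e12 : y.1.1.toBlocks₁₂ = 0 := mat_eq hy r12 (RegMat.const 0) (by
    rintro _ ⟨z, hz, rfl⟩
    exact toBlocks_fromBlocks₁₂ _ _ _ _)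
  have e21 : y.1.1.toBlocks₂₁ = 0 := mat_eq hy r21 (RegMat.const 0) (by
    rintro _ ⟨z, hz, rfl⟩
    exact toBlocks_fromBlocks₂₁ _ _ _ _)
  have f12 : y.1⁻¹.1.toBlocks₁₂ = 0 := mat_eq hy s12 (RegMat.const 0) (by
    rintro _ ⟨z, hz, rfl⟩
    exact toBlocks_fromBlocks₁₂ _ _ _ _)
  have f21 : y.1⁻¹.1.toBlocks₂₁ = 0 := mat_eq hy s21 (RegMat.const 0) (by
    rintro _ ⟨z, hz, rfl⟩
    exact toBlocks_fromBlocks₂₁ _ _ _ _)
  have e0 : y.1.1 = fromBlocks y.1.1.toBlocks₁₁ 0 0 y.1.1.toBlocks₂₂ := by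
    conv_lhs => rw [← fromBlocks_toBlocks y.1.1, e12, e21]
  have f0 : y.1⁻¹.1 = fromBlocks y.1⁻¹.1.toBlocks₁₁ 0 0 y.1⁻¹.1.toBlocks₂₂ := by
    conv_lhs => rw [← fromBlocks_toBlocks y.1⁻¹.1, f12, f21]
  have hyy : y.1.1 * y.1⁻¹.1 = 1 := y.1.mul_inv
  have hyy' : y.1⁻¹.1 * y.1.1 = 1 := y.1.inv_mul
  rw [e0, f0, fromBlocks_multiply, ← fromBlocks_one, fromBlocks_inj] at hyy hyy'
  simp only [Matrix.mul_zero, Matrix.zero_mul, add_zero, zero_add, true_and] at hyy hyy'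
  let z : Grp3 g n := (⟨y.1.1.toBlocks₁₁, y.1⁻¹.1.toBlocks₁₁, hyy.1, hyy'.1⟩,
    ⟨y.1.1.toBlocks₂₂, y.1⁻¹.1.toBlocks₂₂, hyy.2, hyy'.2⟩, y.2)
  refine ⟨z, ⟨⟨fun j => ?_, fun Z hZ => ?_, ?_⟩, ?_, fun e he => ?_⟩, ?_⟩
  · refine mat_eq hy (r11.mul (RegMat.const _)) (RegMat.mul (RegMat.sum _
      (fun i => RegMat.smul (r22 i j) (RegMat.const (cx (B i))))) r11) ?_
    rintro _ ⟨w, hw, rfl⟩
    exact hw.1.1 j
  · refine mat_eq hy (r11.mul (RegMat.const _)) ((RegMat.const (cx Z)).mul r11) ?_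
    rintro _ ⟨w, hw, rfl⟩
    exact hw.1.2.1 Z hZ
  · refine mat_eq hy ((r11.transpose.mul (RegMat.const (cx A.psi))).mul r11)
      (RegMat.smul Reg.mult (RegMat.const (cx A.psi))) ?_
    rintro _ ⟨w, hw, rfl⟩
    exact hw.1.2.2
  · refine mat_eq hy ((r22.transpose.mul (RegMat.const (cx qB))).mul r22)
      (RegMat.const (cx qB)) ?_
    rintro _ ⟨w, hw, rfl⟩
    exact hw.2.1
  · refine mat_eq hy (r22.mul (RegMat.const (cx e))) ((RegMat.const (cx e)).mul r22) ?_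
    rintro _ ⟨w, hw, rfl⟩
    exact hw.2.2 e he
  · refine Prod.ext (Units.ext ?_) rfl
    exact e0.symm

theorem tw_alg {L : IntermediateField ℚ ℂ} {μ ν : Type} {X : Matrix μ ν ℂ}
    (hX : ∀ i j, X i j ∈ L) {τ : ℂ ≃+* ℂ} (hτ : FixesField L τ) :
    X.map (τ : ℂ →+* ℂ) = X := by
  ext i j
  exact hτ _ (hX i j)

/-- how the automorphisms over `L` move the period point -/
theorem per_mem {I : Type} [Fintype I] [DecidableEq I] {ix : Fin n → I}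
    {π : I → Matrix (Ix g) (Ix g) ℚ} (hKS : KSFam A c t qdR qB B E ix π)
    {L : IntermediateField ℚ ℂ} (hL : L ≤ Qbar) (hO : KSOver L A c t qdR B E) {τ : ℂ ≃+* ℂ}
    (hτ : FixesField L τ) :
    tw3 τ (c, t, C.tpi) * (c, t, C.tpi)⁻¹ ∈ W0 A c qB B E := by
  have hcc : c.1 * c⁻¹.1 = 1 := c.mul_inv
  have hcc' : c⁻¹.1 * c.1 = 1 := c.inv_mul
  have htt : t.1 * t⁻¹.1 = 1 := t.mul_inv
  have htt' : t⁻¹.1 * t.1 = 1 := t.inv_mul
  have g1 : c.1.map (τ : ℂ →+* ℂ) = (Tors.tw τ c).1 := rfl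
  have g2 : t.1.map (τ : ℂ →+* ℂ) = (Tors.tw τ t).1 := rfl
  have g3 : (t.1ᵀ).map (τ : ℂ →+* ℂ) = (Tors.tw τ t).1ᵀ := rfl
  -- endomorphisms
  have key : ∀ {μ : Type} [Fintype μ] [DecidableEq μ] (u : GL μ ℂ) (Z : Matrix μ μ ℚ)
      (Z' : Matrix μ μ ℂ), (∀ i j, Z' i j ∈ L) → u.1 * Z' = cx Z * u.1 →
      (Tors.tw τ u * u⁻¹).1 * cx Z = cx Z * (Tors.tw τ u * u⁻¹).1 := by
    intro μ _ _ u Z Z' hZ' h
    have huu : u.1 * u⁻¹.1 = 1 := u.mul_inv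
    have huu' : u⁻¹.1 * u.1 = 1 := u.inv_mul
    have h1 := congrArg (fun X : Matrix μ μ ℂ => X.map (τ : ℂ →+* ℂ)) h
    beta_reduce at h1
    rw [Matrix.map_mul, Matrix.map_mul, mp_cx, tw_alg hZ' hτ] at h1
    have h1' : (Tors.tw τ u).1 * Z' = cx Z * (Tors.tw τ u).1 := h1
    have h2 : u⁻¹.1 * cx Z = Z' * u⁻¹.1 := by
      calc u⁻¹.1 * cx Z = u⁻¹.1 * (cx Z * u.1) * u⁻¹.1 := by
            rw [Matrix.mul_assoc, Matrix.mul_assoc (cx Z), huu, Matrix.mul_one]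
        _ = (u⁻¹.1 * u.1) * Z' * u⁻¹.1 := by rw [← h]; simp only [Matrix.mul_assoc]
        _ = _ := by rw [huu', Matrix.one_mul]
    change (Tors.tw τ u).1 * u⁻¹.1 * cx Z = cx Z * ((Tors.tw τ u).1 * u⁻¹.1)
    rw [Matrix.mul_assoc, h2, ← Matrix.mul_assoc, h1', Matrix.mul_assoc]
  refine ⟨⟨fun j => ?_, fun Z hZ => ?_, ?_⟩, ?_, fun e he => ?_⟩
  · -- the Clifford multiplication
    choose B' hB' hB using hO.morphism
    have h1 : ∀ j, (Tors.tw τ c).1 * B' j =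
        (∑ i, (Tors.tw τ t).1 i j • cx (B i)) * (Tors.tw τ c).1 := by
      intro j
      have h := congrArg (fun X : Matrix (Ix g) (Ix g) ℂ => X.map (τ : ℂ →+* ℂ)) (hB j)
      beta_reduce at h
      rw [Matrix.map_mul, Matrix.map_mul, tw_alg (hB' j) hτ, mp_sum] at h
      exact h
    have h2 : c⁻¹.1 * cx (B j) = (∑ k, t⁻¹.1 k j • B' k) * c⁻¹.1 := by
      have h3 : c.1 * (∑ k, t⁻¹.1 k j • B' k) = cx (B j) * c.1 := by
        rw [Finset.mul_sum]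
        have h4 : ∀ k, c.1 * t⁻¹.1 k j • B' k = ∑ i, (t.1 i k * t⁻¹.1 k j) • (cx (B i) * c.1) := by
          intro k
          rw [Matrix.mul_smul, hB, Finset.sum_mul, Finset.smul_sum]
          refine Finset.sum_congr rfl fun i _ => ?_
          rw [Matrix.smul_mul, smul_smul, mul_comm]
        rw [Finset.sum_congr rfl fun k _ => h4 k, Finset.sum_comm]
        have h5 : ∀ i, ∑ k, (t.1 i k * t⁻¹.1 k j) • (cx (B i) * c.1) =
            (1 : Matrix (Fin n) (Fin n) ℂ) i j • (cx (B i) * c.1) := by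
          intro i
          rw [← Finset.sum_smul, ← Matrix.mul_apply, htt]
        rw [Finset.sum_congr rfl fun i _ => h5 i, Finset.sum_eq_single j]
        · rw [Matrix.one_apply_eq, one_smul]
        · intro i _ hij
          rw [Matrix.one_apply_ne hij, zero_smul]
        · intro h
          exact absurd (Finset.mem_univ _) h
      calc c⁻¹.1 * cx (B j) = c⁻¹.1 * (cx (B j) * c.1) * c⁻¹.1 := by
            rw [Matrix.mul_assoc, Matrix.mul_assoc (cx (B j)), hcc, Matrix.mul_one]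
        _ = (c⁻¹.1 * c.1) * (∑ k, t⁻¹.1 k j • B' k) * c⁻¹.1 := by
            rw [← h3]
            simp only [Matrix.mul_assoc]
        _ = _ := by rw [hcc', Matrix.one_mul]
    change (Tors.tw τ c).1 * c⁻¹.1 * cx (B j) =
      (∑ i, ((Tors.tw τ t).1 * t⁻¹.1) i j • cx (B i)) * ((Tors.tw τ c).1 * c⁻¹.1)
    rw [Matrix.mul_assoc, h2, ← Matrix.mul_assoc, ← Matrix.mul_assoc]
    congr 1
    rw [Finset.mul_sum]
    have h6 : ∀ k, (Tors.tw τ c).1 * t⁻¹.1 k j • B' k =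
        ∑ i, ((Tors.tw τ t).1 i k * t⁻¹.1 k j) • (cx (B i) * (Tors.tw τ c).1) := by
      intro k
      rw [Matrix.mul_smul, h1, Finset.sum_mul, Finset.smul_sum]
      refine Finset.sum_congr rfl fun i _ => ?_
      rw [Matrix.smul_mul, smul_smul, mul_comm]
    rw [Finset.sum_congr rfl fun k _ => h6 k, Finset.sum_comm, Finset.sum_mul]
    refine Finset.sum_congr rfl fun i _ => ?_
    rw [← Finset.sum_smul, ← Matrix.mul_apply, Matrix.smul_mul]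
  · obtain ⟨Z', hZ', h⟩ := hO.endA Z hZ
    exact key c Z Z' hZ' h
  · obtain ⟨ψdR, hpol⟩ := U.specLEG L g N A c hL hO.abvar hKS.per
    exact Eq2M.sim_tw hpol hτ
  · -- the form
    have h := congrArg (fun X : Matrix (Fin n) (Fin n) ℂ => X.map (τ : ℂ →+* ℂ)) hKS.form
    beta_reduce at h
    rw [Matrix.map_mul, Matrix.map_mul, mp_cx, tw_alg hO.alg hτ, g2, g3] at h
    change ((Tors.tw τ t).1 * t⁻¹.1)ᵀ * cx qB * ((Tors.tw τ t).1 * t⁻¹.1) = cx qB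
    have h1 : t⁻¹.1ᵀ * t.1ᵀ = 1 := by rw [← Matrix.transpose_mul, htt, Matrix.transpose_one]
    calc ((Tors.tw τ t).1 * t⁻¹.1)ᵀ * cx qB * ((Tors.tw τ t).1 * t⁻¹.1) =
        t⁻¹.1ᵀ * ((Tors.tw τ t).1ᵀ * cx qB * (Tors.tw τ t).1) * t⁻¹.1 := by
          rw [Matrix.transpose_mul]
          simp only [Matrix.mul_assoc]
      _ = (t⁻¹.1ᵀ * t.1ᵀ) * cx qB * (t.1 * t⁻¹.1) := by
          rw [h, ← hKS.form]
          simp only [Matrix.mul_assoc]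
      _ = _ := by rw [h1, htt, Matrix.one_mul, Matrix.mul_one]
  · obtain ⟨e', he', h⟩ := hO.endT e he
    exact key t e e' he' h

end grp

/-- the points of `W0` are in `gspinM` -/
theorem W0_sub (D : Dat) {y : Grp3 D.g D.n} (hy : y ∈ W0 D.A D.c D.qB D.B D.E) :
    y ∈ gspinM D.A D.c D.qB D.B D.m D.P D.m' D.P' D.Q' := by
  obtain ⟨h1, h2, h3⟩ := hy
  obtain ⟨w, hw, hx⟩ := KSBlk.exists_blocks h2 h3
  have h4 : ((y.1, wh D w, y.2.2) : Grp3 D.g D.n) ∈ G0 D.B (EndAlg D.c.1) D.A.psi := by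
    have e : ((y.1, wh D w, y.2.2) : Grp3 D.g D.n) = y := Prod.ext rfl (Prod.ext hx.symm rfl)
    rw [e]
    exact h1
  have h5 := KSDet.det_one D hw h4
  refine ⟨⟨fun k => ⟨w.1 k, hw k, h5 k⟩, w.2, ?_⟩, h1.1, h1.2.1, h1.2.2⟩
  have h6 : y.2.1.1 = (wh D w).1 := congrArg Units.val hx
  exact h6

/-- The exact equality. -/
theorem ks_eq (D : Dat) {L : IntermediateField ℚ ℂ} (hL : L ≤ Qbar)
    (hO : KSOver L D.A D.c D.t D.qdR D.B D.E) {k : ℕ} {r : GL (Fin k) ℂ}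
    (hr : ∀ i j, r.1 i j ∈ L) {ν ι : Type} [Fintype ν]
    [DecidableEq ν] [Fintype ι] [DecidableEq ι]
    {Θ : GL ((Ix D.g ⊕ Fin D.n) ⊕ Fin k) ℂ × ℂˣ → GL ν ℂ} (hΘ : IsRep Θ) {M : GL ι ℂ}
    {iB : Matrix ν ι ℚ} (hM : IsSubOver L (Θ (dsum (dsum D.c D.t) r, C.tpi)) M iB)
    (hstab : ∀ y ∈ gspinM D.A D.c D.qB D.B D.m D.P D.m' D.P' D.Q', ∃ f : GL ι ℂ,
      (Θ (dsum (dsum y.1 y.2.1) 1, y.2.2)).1 * cx iB = cx iB * f.1) {h : GL ι ℂ}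
    (hh : h ∈ OmegaDRB L M) :
    ∃ f ∈ SubGroup (gspinM D.A D.c D.qB D.B D.m D.P D.m' D.P' D.Q') Θ iB, h = f * M := by
  obtain ⟨SW, hSW⟩ := W0_closed (A := D.A) (c := D.c) (qB := D.qB) (B := D.B) (E := D.E)
  obtain ⟨f, ⟨_, ⟨y, hy, rfl⟩, hf⟩, e⟩ := eqg (W := (W0 D.A D.c D.qB D.B D.E).map i3) hSW (by
      rintro τ _ ⟨y, hy, rfl⟩
      exact ⟨_, W0_tw τ hy, (i3_tw τ y).symm⟩) (isRep_inc hΘ)
    (L := L) (m := (dsum D.c D.t, C.tpi)) (by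
      intro τ hτ
      refine ⟨_, per_mem D.ks hL hO hτ, ?_⟩
      rw [map_mul, map_inv, ← i3_tw]
      rfl) (isSub_inc hΘ hr hM) (by
      rintro _ ⟨y, hy, rfl⟩
      exact hstab y (W0_sub D hy)) hh
  exact ⟨f, ⟨y, W0_sub D hy, hf⟩, e⟩

end Pool.Agent.Lib.MPf11a48.SH.KSEq
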